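import Pool.Agent.Helper64.AV.Qe
import Pool.Agent.Helper91.AV.Def4

/-!
# The rank over a multiquadratic extension
-/

set_option autoImplicit false
set_option linter.unusedVariables false

open NumberField WeierstrassCurve Polynomial
open scoped Classical

namespace Pool.Agent.Helper64.AV

open Pool.Agent.Helper91.AV

theorem finrank_le_of_surj {F M : Type} [Field F] [NumberField F] [Field M] [Algebra F M]
    (hsurj : Function.Surjective (algebraMap F M)) {a b : F} (hab : 4 * a ^ 3 + 27 * b ^ 2 ≠ 0) :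
    Module.finrank ℤ (EPt (algebraMap F M a) (algebraMap F M b)) ≤ Module.finrank ℤ (EPt a b) := by
  have hF := fin_of_ne hab
  let e : F ≃+* M := RingEquiv.ofBijective (algebraMap F M) ⟨(algebraMap F M).injective, hsurj⟩
  have he : ∀ x : F, (e.symm : M →+* F) (algebraMap F M x) = x := fun x => e.symm_apply_apply x
  have h1 : a = 1 ^ 4 * (e.symm : M →+* F) (algebraMap F M a) := by rw [he]; simp
  have h2 : b = 1 ^ 6 * (e.symm : M →+* F) (algebraMap F M b) := by rw [he]; simp
  let f := tw (e.symm : M →+* F) (one_ne_zero : (1 : F) ≠ 0) h1 h2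
  have h3 := finrank_le_add f.toIntLinearMap (0 : EPt (algebraMap F M a) (algebraMap F M b) →ₗ[ℤ] PUnit) (by
    intro Q hQ _
    refine ⟨1, one_ne_zero, ?_⟩
    rw [one_smul]
    exact (map_eq_zero_iff f (tw_inj _ _ _ _)).1 hQ)
  have h4 : Module.finrank ℤ PUnit = 0 := Module.finrank_zero_of_subsingleton
  omega

theorem mq_aux {F : Type} [Field F] [NumberField F] {ι : Type} (d : ι → F) (s : Finset ι) :
    (∀ i ∈ s, d i ≠ 0) → ∀ (M : Type) [Field M] [NumberField M] [Algebra F M] (δ : ι → M),
    (∀ i ∈ s, δ i ^ 2 = algebraMap F M (d i)) → IntermediateField.adjoin F (δ '' s) = ⊤ →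
    ∀ a b : F, 4 * a ^ 3 + 27 * b ^ 2 ≠ 0 →
    Module.finrank ℤ (EPt (algebraMap F M a) (algebraMap F M b)) ≤
      ∑ I ∈ s.powerset, Module.finrank ℤ (EPt ((∏ i ∈ I, d i) ^ 2 * a) ((∏ i ∈ I, d i) ^ 3 * b)) := by
  induction s using Finset.induction with
  | empty =>
    intro _ M _ _ _ δ _ ht a b hab
    rw [Finset.coe_empty, Set.image_empty, IntermediateField.adjoin_empty] at ht
    have hsurj : Function.Surjective (algebraMap F M) := by
      intro x
      have hx : x ∈ (⊥ : IntermediateField F M) := by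
        rw [ht]
        exact IntermediateField.mem_top
      exact IntermediateField.mem_bot.1 hx
    rw [Finset.powerset_empty, Finset.sum_singleton, Finset.prod_empty]
    have h := finrank_le_of_surj hsurj hab
    rw [one_pow, one_pow, one_mul, one_mul]
    exact h
  | insert i₀ s hi₀ ih =>
    intro hd M _ _ _ δ hδ ht a b hab
    have hds : ∀ i ∈ s, d i ≠ 0 := fun i hi => hd i (Finset.mem_insert_of_mem hi)
    have hd0 : d i₀ ≠ 0 := hd i₀ (Finset.mem_insert_self _ _)
    let M' : IntermediateField F M := IntermediateField.adjoin F (δ '' s)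
    have hM' : NumberField M' := NumberField.of_intermediateField M'
    have hmem : ∀ i ∈ s, δ i ∈ M' := fun i hi =>
      IntermediateField.subset_adjoin F _ ⟨i, Finset.mem_coe.2 hi, rfl⟩
    let δ' : ι → M' := fun i => if h : δ i ∈ M' then ⟨δ i, h⟩ else 0
    have hδ'v : ∀ i ∈ s, ((δ' i : M') : M) = δ i := by
      intro i hi
      simp only [δ', dif_pos (hmem i hi)]
    have hδ' : ∀ i ∈ s, δ' i ^ 2 = algebraMap F M' (d i) := by
      intro i hi
      apply Subtype.ext
      rw [SubmonoidClass.coe_pow, hδ'v i hi]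
      exact hδ i (Finset.mem_insert_of_mem hi)
    have ht' : IntermediateField.adjoin F (δ' '' s) = ⊤ := by
      apply IntermediateField.map_injective M'.val
      rw [IntermediateField.adjoin_map, ← AlgHom.fieldRange_eq_map, IntermediateField.fieldRange_val, ← Set.image_comp]
      have : (M'.val ∘ δ') '' s = δ '' s := by
        apply Set.image_congr
        intro i hi
        exact hδ'v i (Finset.mem_coe.1 hi)
      rw [this]
    have ht2 : IntermediateField.adjoin M' {δ i₀} = ⊤ := by
      rw [← IntermediateField.restrictScalars_eq_top_iff (K := F)]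
      rw [IntermediateField.adjoin_adjoin_left]
      rw [← ht]
      congr 1
      rw [Finset.coe_insert, Set.image_insert_eq, Set.union_singleton]
    have hQ := qe M' M (algebraMap F M' a) (algebraMap F M' b) (algebraMap F M' (d i₀)) (δ i₀)
      (by rw [← IsScalarTower.algebraMap_apply F M' M]; exact hδ i₀ (Finset.mem_insert_self _ _)) ht2
      (by
        intro h
        apply hab
        apply (algebraMap F M').injective
        rw [map_zero, ← h]
        simp only [map_add, map_mul, map_pow, map_ofNat])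
    rw [← IsScalarTower.algebraMap_apply F M' M, ← IsScalarTower.algebraMap_apply F M' M,
      show algebraMap F M' (d i₀) ^ 2 * algebraMap F M' a = algebraMap F M' (d i₀ ^ 2 * a) by simp,
      show algebraMap F M' (d i₀) ^ 3 * algebraMap F M' b = algebraMap F M' (d i₀ ^ 3 * b) by simp] at hQ
    have h1 := ih hds M' δ' hδ' ht' a b hab
    have h2 := ih hds M' δ' hδ' ht' (d i₀ ^ 2 * a) (d i₀ ^ 3 * b) (by
      have : 4 * (d i₀ ^ 2 * a) ^ 3 + 27 * (d i₀ ^ 3 * b) ^ 2 = d i₀ ^ 6 * (4 * a ^ 3 + 27 * b ^ 2) := by ring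
      rw [this]
      exact mul_ne_zero (pow_ne_zero _ hd0) hab)
    rw [Finset.sum_powerset_insert hi₀]
    refine hQ.trans (add_le_add h1 (h2.trans (le_of_eq ?_)))
    apply Finset.sum_congr rfl
    intro I hI
    have hiI : i₀ ∉ I := fun h => hi₀ (Finset.mem_powerset.1 hI h)
    rw [Finset.prod_insert hiI, show (∏ i ∈ I, d i) ^ 2 * (d i₀ ^ 2 * a) = (d i₀ * ∏ i ∈ I, d i) ^ 2 * a by ring,
      show (∏ i ∈ I, d i) ^ 3 * (d i₀ ^ 3 * b) = (d i₀ * ∏ i ∈ I, d i) ^ 3 * b by ring]

theorem mq : S_MQ := by
  intro F M _ _ _ _ _ k d δ hd hδ ht a b hab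
  have hab' : 4 * (a : F) ^ 3 + 27 * (b : F) ^ 2 ≠ 0 := by
    intro h
    apply hab
    apply IsFractionRing.injective (𝓞 F) F
    rw [map_zero, map_add, map_mul, map_mul, map_pow, map_pow, map_ofNat, map_ofNat]
    exact h
  have h := mq_aux (F := F) (fun i => (d i : F)) Finset.univ (fun i _ h => hd i (by
    apply IsFractionRing.injective (𝓞 F) F
    rw [map_zero]
    exact h)) M δ (fun i _ => hδ i) (by
      rw [Finset.coe_univ, Set.image_univ]
      exact ht) (a : F) (b : F) hab'
  rw [Finset.powerset_univ] at h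
  refine h.trans (le_of_eq ?_)
  apply Finset.sum_congr rfl
  intro I _
  have e1 : ∀ n : ℕ, ∀ c : 𝓞 F, (((∏ i ∈ I, d i) ^ n * c : 𝓞 F) : F) = (∏ i ∈ I, (d i : F)) ^ n * (c : F) := by
    intro n c
    change algebraMap (𝓞 F) F _ = _
    rw [map_mul, map_pow, map_prod]
  rw [e1, e1]

end Pool.Agent.Helper64.AV
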