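import Pool.Agent.Helper91.AV.Def2
import Pool.Graph.R_seed8.TH942.FG

/-!
# The rank over a quadratic extension
-/

set_option autoImplicit false
set_option linter.unusedVariables false
set_option linter.unusedSimpArgs false

open NumberField WeierstrassCurve Polynomial
open scoped Classical

namespace Pool.Agent.Helper64.AV

open Pool.Agent.Helper91.AV

/-! ### ranks -/

theorem rank_le_of_tors {A B : Type} [AddCommGroup A] [AddCommGroup B] (f : A →ₗ[ℤ] B)
    (h : ∀ x, f x = 0 → ∃ n : ℤ, n ≠ 0 ∧ n • x = 0) : Module.rank ℤ A ≤ Module.rank ℤ B := by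
  have h1 := LinearMap.rank_range_add_rank_ker f
  have h2 : Module.rank ℤ (LinearMap.ker f) = 0 := by
    rw [rank_eq_zero_iff]
    rintro ⟨x, hx⟩
    obtain ⟨n, hn, hn1⟩ := h x hx
    exact ⟨n, hn, Subtype.ext hn1⟩
  rw [h2, add_zero] at h1
  rw [← h1]
  exact Submodule.rank_le _

theorem finrank_le_add {A B C : Type} [AddCommGroup A] [AddCommGroup B] [AddCommGroup C]
    [Module.Finite ℤ B] [Module.Finite ℤ C] (f : A →ₗ[ℤ] B) (g : A →ₗ[ℤ] C)
    (h : ∀ x, f x = 0 → g x = 0 → ∃ n : ℤ, n ≠ 0 ∧ n • x = 0) :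
    Module.finrank ℤ A ≤ Module.finrank ℤ B + Module.finrank ℤ C := by
  have h1 := LinearMap.rank_range_add_rank_ker f
  have h2 : Module.rank ℤ (LinearMap.ker f) ≤ Module.rank ℤ C := by
    refine rank_le_of_tors (g.comp (LinearMap.ker f).subtype) ?_
    rintro ⟨x, hx⟩ hx2
    obtain ⟨n, hn, hn1⟩ := h x hx hx2
    exact ⟨n, hn, Subtype.ext hn1⟩
  have h3 : Module.rank ℤ (LinearMap.range f) ≤ Module.rank ℤ B := Submodule.rank_le _
  have h4 : Module.rank ℤ A ≤ Module.rank ℤ B + Module.rank ℤ C := by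
    rw [← h1]
    exact add_le_add h3 h2
  rw [← Module.finrank_eq_rank ℤ B, ← Module.finrank_eq_rank ℤ C, ← Nat.cast_add] at h4
  have h5 : Module.rank ℤ A < Cardinal.aleph0 := h4.trans_lt (Cardinal.natCast_lt_aleph0)
  rw [Module.finrank]
  have h6 := Cardinal.toNat_le_toNat h4 Cardinal.natCast_lt_aleph0
  rwa [Cardinal.toNat_natCast] at h6

/-! ### scaling -/

section scale
variable {F M : Type} [Field F] [Field M]

theorem ns_iff {a b x y : M} : (⟨0, 0, 0, a, b⟩ : WeierstrassCurve M).toAffine.Nonsingular x y ↔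
    y ^ 2 = x ^ 3 + a * x + b ∧ (3 * x ^ 2 + a ≠ 0 ∨ 2 * y ≠ 0) := by
  rw [Affine.nonsingular_iff, Affine.equation_iff]
  simp only [zero_mul, add_zero, mul_zero, sub_zero]
  constructor
  · rintro ⟨h1, h2⟩
    refine ⟨h1, ?_⟩
    rcases h2 with h2 | h2
    · left; intro h; exact h2 (by linear_combination -h)
    · right; intro h; exact h2 (by linear_combination h)
  · rintro ⟨h1, h2⟩
    refine ⟨h1, ?_⟩
    rcases h2 with h2 | h2
    · left; intro h; exact h2 (by linear_combination -h)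
    · right; intro h; exact h2 (by linear_combination h)


theorem slope_tw (φ : F →+* M) {u : M} (hu : u ≠ 0) {a b : F} {a' b' : M}
    (ha : a' = u ^ 4 * φ a) (hb : b' = u ^ 6 * φ b) (x₁ x₂ y₁ y₂ : F) :
    (⟨0, 0, 0, a', b'⟩ : WeierstrassCurve M).toAffine.slope (u ^ 2 * φ x₁) (u ^ 2 * φ x₂)
      (u ^ 3 * φ y₁) (u ^ 3 * φ y₂) =
    u * φ ((⟨0, 0, 0, a, b⟩ : WeierstrassCurve F).toAffine.slope x₁ x₂ y₁ y₂) := by
  by_cases hx : x₁ = x₂
  · by_cases hy : y₁ = -y₂
    · rw [Affine.slope_of_Y_eq hx (by simp [Affine.negY, hy]),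
        Affine.slope_of_Y_eq (by rw [hx]) (by simp [Affine.negY, hy])]
      simp
    · have h1 : u ^ 3 * φ y₁ ≠ -(u ^ 3 * φ y₂) := by
        intro h
        apply hy
        have h2 : u ^ 3 * (φ y₁ - φ (-y₂)) = 0 := by rw [map_neg]; linear_combination h
        have h3 := (mul_eq_zero.1 h2).resolve_left (pow_ne_zero _ hu)
        exact φ.injective (sub_eq_zero.1 h3)
      rw [Affine.slope_of_Y_ne hx (by simpa [Affine.negY] using hy),
        Affine.slope_of_Y_ne (by rw [hx]) (by simpa [Affine.negY] using h1)]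
      subst hx
      simp only [Affine.negY, zero_mul, mul_zero, add_zero, sub_zero, map_div₀, map_add, map_mul,
        map_sub, map_neg, map_pow, map_ofNat, ha, sub_neg_eq_add]
      by_cases hyy : φ y₁ + φ y₁ = 0
      · rw [hyy, div_zero, mul_zero]
        have : u ^ 3 * φ y₁ + u ^ 3 * φ y₁ = 0 := by linear_combination u ^ 3 * hyy
        rw [this, div_zero]
      · have : u ^ 3 * φ y₁ + u ^ 3 * φ y₁ = u ^ 3 * (φ y₁ + φ y₁) := by ring
        rw [this]
        field_simp
  · have h1 : u ^ 2 * φ x₁ ≠ u ^ 2 * φ x₂ := by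
      intro h
      exact hx (φ.injective (mul_left_cancel₀ (pow_ne_zero _ hu) h))
    have h2 : φ x₁ - φ x₂ ≠ 0 := sub_ne_zero.2 (fun h => hx (φ.injective h))
    rw [Affine.slope_of_X_ne hx, Affine.slope_of_X_ne h1]
    simp only [map_div₀, map_sub]
    have : u ^ 2 * φ x₁ - u ^ 2 * φ x₂ = u ^ 2 * (φ x₁ - φ x₂) := by ring
    rw [this]
    field_simp

theorem ns_tw (φ : F →+* M) {u : M} (hu : u ≠ 0) {a b : F} {a' b' : M}
    (ha : a' = u ^ 4 * φ a) (hb : b' = u ^ 6 * φ b) {x y : F}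
    (h : (⟨0, 0, 0, a, b⟩ : WeierstrassCurve F).toAffine.Nonsingular x y) :
    (⟨0, 0, 0, a', b'⟩ : WeierstrassCurve M).toAffine.Nonsingular (u ^ 2 * φ x) (u ^ 3 * φ y) := by
  rw [ns_iff] at h ⊢
  obtain ⟨h1, h2⟩ := h
  constructor
  · have := congrArg φ h1
    simp only [map_add, map_mul, map_pow] at this
    rw [ha, hb]
    linear_combination u ^ 6 * this
  · rcases h2 with h2 | h2
    · left
      intro h
      apply h2
      rw [ha] at h
      have h3 : u ^ 4 * φ (3 * x ^ 2 + a) = 0 := by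
        simp only [map_add, map_mul, map_pow, map_ofNat]
        linear_combination h
      exact (map_eq_zero φ).1 ((mul_eq_zero.1 h3).resolve_left (pow_ne_zero _ hu))
    · right
      intro h
      apply h2
      have h3 : u ^ 3 * φ (2 * y) = 0 := by
        simp only [map_mul, map_ofNat]
        linear_combination h
      exact (map_eq_zero φ).1 ((mul_eq_zero.1 h3).resolve_left (pow_ne_zero _ hu))

/-- the homomorphism `(x, y) ↦ (u² φ x, u³ φ y)` -/
noncomputable def tw (φ : F →+* M) {u : M} (hu : u ≠ 0) {a b : F} {a' b' : M}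
    (ha : a' = u ^ 4 * φ a) (hb : b' = u ^ 6 * φ b) : EPt a b →+ EPt a' b' where
  toFun P := match P with
    | .zero => .zero
    | .some x y h => .some (u ^ 2 * φ x) (u ^ 3 * φ y) (ns_tw φ hu ha hb h)
  map_zero' := rfl
  map_add' := by
    rintro (_ | ⟨x₁, y₁, h₁⟩) (_ | ⟨x₂, y₂, h₂⟩)
    · rfl
    · rfl
    · rfl
    · by_cases hxy : x₁ = x₂ ∧ y₁ = -y₂
      · rw [Affine.Point.add_of_Y_eq hxy.1 (by simp [Affine.negY, hxy.2])]
        refine (Affine.Point.add_of_Y_eq ?_ ?_).symm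
        · rw [hxy.1]
        · simp [Affine.negY, hxy.2]
      · have h3 : ¬ (x₁ = x₂ ∧ y₁ = (⟨0, 0, 0, a, b⟩ : WeierstrassCurve F).toAffine.negY x₂ y₂) := by
          simpa [Affine.negY] using hxy
        have h4 : ¬ (u ^ 2 * φ x₁ = u ^ 2 * φ x₂ ∧ u ^ 3 * φ y₁ =
            (⟨0, 0, 0, a', b'⟩ : WeierstrassCurve M).toAffine.negY (u ^ 2 * φ x₂) (u ^ 3 * φ y₂)) := by
          rintro ⟨h5, h6⟩
          apply hxy
          simp only [Affine.negY, zero_mul, sub_zero] at h6
          refine ⟨φ.injective (mul_left_cancel₀ (pow_ne_zero _ hu) h5), ?_⟩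
          apply φ.injective
          apply mul_left_cancel₀ (pow_ne_zero 3 hu)
          rw [map_neg]
          linear_combination h6
        rw [Affine.Point.add_some h3]
        refine Eq.trans ?_ (Affine.Point.add_some h4).symm
        simp only [Affine.Point.some.injEq, slope_tw φ hu ha hb]
        constructor
        · simp only [Affine.addX, zero_mul, add_zero, sub_zero, map_sub, map_pow]
          ring
        · simp only [Affine.addY, Affine.negAddY, Affine.negY, Affine.addX, zero_mul, add_zero, sub_zero,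
            map_sub, map_pow, map_neg, map_add, map_mul]
          ring

theorem tw_zero (φ : F →+* M) {u : M} (hu : u ≠ 0) {a b : F} {a' b' : M}
    (ha : a' = u ^ 4 * φ a) (hb : b' = u ^ 6 * φ b) : tw φ hu ha hb .zero = .zero := rfl

theorem tw_some (φ : F →+* M) {u : M} (hu : u ≠ 0) {a b : F} {a' b' : M}
    (ha : a' = u ^ 4 * φ a) (hb : b' = u ^ 6 * φ b) {x y : F}
    (h : (⟨0, 0, 0, a, b⟩ : WeierstrassCurve F).toAffine.Nonsingular x y) :
    tw φ hu ha hb (.some x y h) = .some (u ^ 2 * φ x) (u ^ 3 * φ y) (ns_tw φ hu ha hb h) := rfl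

theorem tw_inj (φ : F →+* M) {u : M} (hu : u ≠ 0) {a b : F} {a' b' : M}
    (ha : a' = u ^ 4 * φ a) (hb : b' = u ^ 6 * φ b) : Function.Injective (tw φ hu ha hb) := by
  rintro (_ | ⟨x₁, y₁, h₁⟩) (_ | ⟨x₂, y₂, h₂⟩) h
  · rfl
  · rw [tw_zero, tw_some] at h
    cases h
  · rw [tw_zero, tw_some] at h
    cases h
  · rw [tw_some, tw_some, Affine.Point.some.injEq] at h
    rw [Affine.Point.some.injEq]
    exact ⟨φ.injective (mul_left_cancel₀ (pow_ne_zero _ hu) h.1),
      φ.injective (mul_left_cancel₀ (pow_ne_zero _ hu) h.2)⟩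

/-- a point in the image -/
theorem tw_mem (φ : F →+* M) {u : M} (hu : u ≠ 0) {a b : F} {a' b' : M}
    (ha : a' = u ^ 4 * φ a) (hb : b' = u ^ 6 * φ b) {x y : F} {x' y' : M}
    (h : (⟨0, 0, 0, a', b'⟩ : WeierstrassCurve M).toAffine.Nonsingular x' y')
    (hx : x' = u ^ 2 * φ x) (hy : y' = u ^ 3 * φ y) : ∃ P : EPt a b, tw φ hu ha hb P = .some x' y' h := by
  have h0 : (⟨0, 0, 0, a, b⟩ : WeierstrassCurve F).toAffine.Nonsingular x y := by
    rw [ns_iff] at h ⊢
    obtain ⟨h1, h2⟩ := h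
    constructor
    · apply φ.injective
      apply mul_left_cancel₀ (pow_ne_zero 6 hu)
      simp only [map_add, map_mul, map_pow]
      rw [hx, hy, ha, hb] at h1
      linear_combination h1
    · rcases h2 with h2 | h2
      · left
        intro h3
        apply h2
        have := congrArg φ h3
        simp only [map_add, map_mul, map_pow, map_ofNat, map_zero] at this
        rw [hx, ha]
        linear_combination u ^ 4 * this
      · right
        intro h3
        apply h2
        have := congrArg φ h3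
        simp only [map_mul, map_ofNat, map_zero] at this
        rw [hy]
        linear_combination u ^ 3 * this
  refine ⟨.some x y h0, ?_⟩
  rw [tw_some, Affine.Point.some.injEq]
  exact ⟨hx.symm, hy.symm⟩

end scale


theorem fin_of_ne {F : Type} [Field F] [NumberField F] {a b : F} (h : 4 * a ^ 3 + 27 * b ^ 2 ≠ 0) :
    Module.Finite ℤ (EPt a b) :=
  Module.Finite.iff_addGroup_fg.2 (Pool.Agent.TH942.sfg h)

section quad
variable {F M : Type} [Field F] [NumberField F] [Field M] [NumberField M] [Algebra F M]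

theorem exists_uv {d : F} {δ : M} (hδ : δ ^ 2 = algebraMap F M d)
    (ht : IntermediateField.adjoin F {δ} = ⊤) (x : M) :
    ∃ p q : F, x = algebraMap F M p + algebraMap F M q * δ := by
  have hal : IsAlgebraic F δ := by
    refine ⟨X ^ 2 - C d, ?_, ?_⟩
    · exact (monic_X_pow_sub_C d two_ne_zero).ne_zero
    · simp [hδ]
  have h1 := IntermediateField.adjoin_simple_toSubalgebra_of_isAlgebraic hal
  rw [ht, IntermediateField.top_toSubalgebra] at h1
  have hx : x ∈ Algebra.adjoin F {δ} := by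
    rw [← h1]
    exact Algebra.mem_top
  induction hx using Algebra.adjoin_induction with
  | mem y hy =>
    rw [Set.mem_singleton_iff] at hy
    exact ⟨0, 1, by rw [hy]; simp⟩
  | algebraMap r => exact ⟨r, 0, by simp⟩
  | add y z _ _ hy hz =>
    obtain ⟨p, q, h⟩ := hy
    obtain ⟨p', q', h'⟩ := hz
    exact ⟨p + p', q + q', by rw [h, h']; simp only [map_add]; ring⟩
  | mul y z _ _ hy hz =>
    obtain ⟨p, q, h⟩ := hy
    obtain ⟨p', q', h'⟩ := hz
    refine ⟨p * p' + q * q' * d, p * q' + q * p', ?_⟩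
    rw [h, h']
    simp only [map_add, map_mul, ← hδ]
    ring

theorem exists_sig {d : F} {δ : M} (hδ : δ ^ 2 = algebraMap F M d)
    (ht : IntermediateField.adjoin F {δ} = ⊤) (hn : ∀ x : F, algebraMap F M x ≠ δ) :
    ∃ σ : M ≃ₐ[F] M, σ δ = -δ := by
  have hal : IsAlgebraic F δ := by
    refine ⟨X ^ 2 - C d, ?_, ?_⟩
    · exact (monic_X_pow_sub_C d two_ne_zero).ne_zero
    · simp [hδ]
  have h1 := IntermediateField.adjoin_simple_toSubalgebra_of_isAlgebraic hal
  rw [ht, IntermediateField.top_toSubalgebra] at h1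
  have hsp : IsSplittingField F M (X ^ 2 - C d) := by
    refine ⟨?_, ?_⟩
    · have : (X ^ 2 - C d : F[X]).map (algebraMap F M) = (X - C δ) * (X - C (-δ)) := by
        simp only [Polynomial.map_sub, Polynomial.map_pow, map_X, map_C, ← hδ, map_pow, map_neg]
        ring
      rw [this]
      exact (Splits.X_sub_C _).mul (Splits.X_sub_C _)
    · rw [eq_top_iff]
      intro x _
      have hx : x ∈ Algebra.adjoin F {δ} := by
        rw [← h1]
        exact Algebra.mem_top
      refine Algebra.adjoin_mono ?_ hx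
      rw [Set.singleton_subset_iff, mem_rootSet]
      exact ⟨(monic_X_pow_sub_C d two_ne_zero).ne_zero, by simp [hδ]⟩
  have hnor : Normal F M := Normal.of_isSplittingField (X ^ 2 - C d)
  have hgal : IsGalois F M := ⟨⟩
  have hfd : FiniteDimensional F M := IsSplittingField.finiteDimensional M (X ^ 2 - C d)
  have h2 : δ ∉ (⊥ : IntermediateField F M) := by
    rw [IntermediateField.mem_bot]
    rintro ⟨x, hx⟩
    exact hn x hx
  rw [IsGalois.mem_bot_iff_fixed] at h2
  push Not at h2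
  obtain ⟨σ, hσ⟩ := h2
  refine ⟨σ, ?_⟩
  have h3 : (σ δ - δ) * (σ δ + δ) = 0 := by
    have : (σ δ) ^ 2 = δ ^ 2 := by
      rw [← map_pow, hδ, AlgEquiv.commutes]
    linear_combination this
  rcases mul_eq_zero.1 h3 with h4 | h4
  · exact absurd (sub_eq_zero.1 h4) hσ
  · exact eq_neg_of_add_eq_zero_left h4

end quad

/-- the lift of a homomorphism into the range of an injective one -/
theorem exists_lift {A B C : Type} [AddCommGroup A] [AddCommGroup B] [AddCommGroup C] (ι : B →+ C)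
    (hι : Function.Injective ι) (f : A →+ C) (h : ∀ x, ∃ y, ι y = f x) :
    ∃ g : A →ₗ[ℤ] B, ∀ x, ι (g x) = f x := by
  choose g hg using h
  refine ⟨(AddMonoidHom.mk' g ?_).toIntLinearMap, hg⟩
  intro x y
  apply hι
  rw [map_add, hg, hg, hg, map_add]

theorem tw_fix {F M : Type} [Field F] [Field M] {a b : F} {a' b' : M} (φ : F →+* M) (σ : M →+* M)
    (ha : a' = 1 ^ 4 * φ a) (hb : b' = 1 ^ 6 * φ b) (ha2 : a' = 1 ^ 4 * σ a') (hb2 : b' = 1 ^ 6 * σ b')
    (hfix : ∀ x, σ x = x → ∃ y, φ y = x) (Q : EPt a' b')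
    (hQ : tw σ one_ne_zero ha2 hb2 Q = Q) : ∃ P, tw φ one_ne_zero ha hb P = Q := by
  rcases Q with _ | ⟨x, y, h⟩
  · exact ⟨.zero, rfl⟩
  · rw [tw_some, Affine.Point.some.injEq, one_pow, one_pow, one_mul, one_mul] at hQ
    obtain ⟨x₀, hx₀⟩ := hfix x hQ.1
    obtain ⟨y₀, hy₀⟩ := hfix y hQ.2
    exact tw_mem φ one_ne_zero ha hb h (by rw [hx₀]; simp) (by rw [hy₀]; simp)

theorem tw_tw {M : Type} [Field M] {a b : M} (σ : M →+* M) (hσ : ∀ x, σ (σ x) = x)
    (ha2 : a = 1 ^ 4 * σ a) (hb2 : b = 1 ^ 6 * σ b) (Q : EPt a b) :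
    tw σ one_ne_zero ha2 hb2 (tw σ one_ne_zero ha2 hb2 Q) = Q := by
  rcases Q with _ | ⟨x, y, h⟩
  · rfl
  · rw [tw_some, tw_some, Affine.Point.some.injEq]
    simp [hσ]

theorem tw_sc {M : Type} [Field M] {a b a' b' : M} (σ : M →+* M) {δ : M} (hδ : δ ≠ 0) (hs : σ δ = -δ)
    (ha : a = 1 ^ 4 * σ a) (hb : b = 1 ^ 6 * σ b) (ha' : a' = 1 ^ 4 * σ a') (hb' : b' = 1 ^ 6 * σ b')
    (h4 : a' = δ ^ 4 * RingHom.id M a) (h6 : b' = δ ^ 6 * RingHom.id M b) (Q : EPt a b) :
    tw σ one_ne_zero ha' hb' (tw (RingHom.id M) hδ h4 h6 Q) =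
      - tw (RingHom.id M) hδ h4 h6 (tw σ one_ne_zero ha hb Q) := by
  rcases Q with _ | ⟨x, y, h⟩
  · rfl
  · rw [tw_some, tw_some, tw_some, tw_some, Affine.Point.neg_some, Affine.Point.some.injEq]
    constructor
    · simp [hs]
    · simp only [RingHom.id_apply, map_mul, map_pow, hs, Affine.negY]
      ring

theorem qe : S_QE := by
  intro F M _ _ _ _ _ a b d δ hδ ht hab
  have hF := fin_of_ne hab
  by_cases hn : ∀ x : F, algebraMap F M x ≠ δ
  · have hδ0 : δ ≠ 0 := by
      intro h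
      exact hn 0 (by rw [map_zero, h])
    have hd0 : d ≠ 0 := by
      intro h
      rw [h, map_zero] at hδ
      exact hδ0 (pow_eq_zero_iff two_ne_zero |>.1 hδ)
    obtain ⟨σ, hσ⟩ := exists_sig hδ ht hn
    have hab' : 4 * (d ^ 2 * a) ^ 3 + 27 * (d ^ 3 * b) ^ 2 ≠ 0 := by
      have : 4 * (d ^ 2 * a) ^ 3 + 27 * (d ^ 3 * b) ^ 2 = d ^ 6 * (4 * a ^ 3 + 27 * b ^ 2) := by ring
      rw [this]
      exact mul_ne_zero (pow_ne_zero _ hd0) hab
    have hF' := fin_of_ne hab'
    let τ : M →+* M := (σ : M →ₐ[F] M).toRingHom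
    have hτ : ∀ x, τ x = σ x := fun x => rfl
    have hτF : ∀ x : F, τ (algebraMap F M x) = algebraMap F M x := fun x => σ.commutes x
    have hτδ : τ δ = -δ := hσ
    have hττ : ∀ x, τ (τ x) = x := by
      intro x
      obtain ⟨p, q, h⟩ := exists_uv hδ ht x
      rw [h]
      simp only [map_add, map_mul, hτF, hτδ, map_neg, neg_neg, mul_neg]
    have hfix : ∀ x, τ x = x → ∃ y, algebraMap F M y = x := by
      intro x hx
      obtain ⟨p, q, h⟩ := exists_uv hδ ht x
      rw [h] at hx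
      simp only [map_add, map_mul, hτF, hτδ] at hx
      have h2 : algebraMap F M q * δ = 0 := by
        have : (2 : M) * (algebraMap F M q * δ) = 0 := by linear_combination -hx
        exact (mul_eq_zero.1 this).resolve_left two_ne_zero
      exact ⟨p, by rw [h, h2, add_zero]⟩
    have ha1 : algebraMap F M a = 1 ^ 4 * algebraMap F M a := by simp
    have hb1 : algebraMap F M b = 1 ^ 6 * algebraMap F M b := by simp
    have ha2 : algebraMap F M a = 1 ^ 4 * τ (algebraMap F M a) := by rw [hτF]; simp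
    have hb2 : algebraMap F M b = 1 ^ 6 * τ (algebraMap F M b) := by rw [hτF]; simp
    have ha1' : algebraMap F M (d ^ 2 * a) = 1 ^ 4 * algebraMap F M (d ^ 2 * a) := by simp
    have hb1' : algebraMap F M (d ^ 3 * b) = 1 ^ 6 * algebraMap F M (d ^ 3 * b) := by simp
    have ha2' : algebraMap F M (d ^ 2 * a) = 1 ^ 4 * τ (algebraMap F M (d ^ 2 * a)) := by
      rw [hτF]; simp
    have hb2' : algebraMap F M (d ^ 3 * b) = 1 ^ 6 * τ (algebraMap F M (d ^ 3 * b)) := by
      rw [hτF]; simp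
    have h4 : algebraMap F M (d ^ 2 * a) = δ ^ 4 * RingHom.id M (algebraMap F M a) := by
      rw [RingHom.id_apply, map_mul, map_pow, ← hδ]; ring
    have h6 : algebraMap F M (d ^ 3 * b) = δ ^ 6 * RingHom.id M (algebraMap F M b) := by
      rw [RingHom.id_apply, map_mul, map_pow, ← hδ]; ring
    let sg := tw τ (one_ne_zero : (1 : M) ≠ 0) ha2 hb2
    let sg' := tw τ (one_ne_zero : (1 : M) ≠ 0) ha2' hb2'
    let ι := tw (algebraMap F M) (one_ne_zero : (1 : M) ≠ 0) ha1 hb1
    let ι' := tw (algebraMap F M) (one_ne_zero : (1 : M) ≠ 0) ha1' hb1'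
    let sc := tw (RingHom.id M) hδ0 h4 h6
    have hsc : ∀ Q, sg' (sc Q) = - sc (sg Q) := tw_sc τ hδ0 hτδ ha2 hb2 ha2' hb2' h4 h6
    have hsg : ∀ Q, sg (sg Q) = Q := tw_tw τ hττ ha2 hb2
    obtain ⟨f, hf⟩ := exists_lift ι (tw_inj _ _ _ _) (AddMonoidHom.id _ + sg) (by
      intro Q
      refine tw_fix (algebraMap F M) τ ha1 hb1 ha2 hb2 hfix _ ?_
      change sg (Q + sg Q) = Q + sg Q
      rw [map_add, hsg, add_comm])
    obtain ⟨g, hg⟩ := exists_lift ι' (tw_inj _ _ _ _) (sc.comp (AddMonoidHom.id _ - sg)) (by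
      intro Q
      refine tw_fix (algebraMap F M) τ ha1' hb1' ha2' hb2' hfix _ ?_
      change sg' (sc (Q - sg Q)) = sc (Q - sg Q)
      rw [hsc, map_sub sg, hsg, ← map_neg, neg_sub])
    refine finrank_le_add f g ?_
    intro Q h1 h2
    have h3 : Q + sg Q = 0 := by
      have := hf Q
      rw [h1, map_zero] at this
      exact this.symm
    have h5 : Q - sg Q = 0 := by
      have := hg Q
      rw [h2, map_zero] at this
      exact (map_eq_zero_iff sc (tw_inj _ _ _ _)).1 this.symm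
    refine ⟨2, two_ne_zero, ?_⟩
    rw [two_smul]
    have h7 : sg Q = Q := (sub_eq_zero.1 h5).symm
    rw [h7] at h3
    exact h3
  · push Not at hn
    obtain ⟨x₀, hx₀⟩ := hn
    have hsurj : Function.Surjective (algebraMap F M) := by
      intro x
      obtain ⟨p, q, h⟩ := exists_uv hδ ht x
      exact ⟨p + q * x₀, by rw [h, map_add, map_mul, hx₀]⟩
    let e : F ≃+* M := RingEquiv.ofBijective (algebraMap F M) ⟨(algebraMap F M).injective, hsurj⟩
    have he : ∀ x : F, (e.symm : M →+* F) (algebraMap F M x) = x := fun x => e.symm_apply_apply x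
    have h1 : a = 1 ^ 4 * (e.symm : M →+* F) (algebraMap F M a) := by rw [he]; simp
    have h2 : b = 1 ^ 6 * (e.symm : M →+* F) (algebraMap F M b) := by rw [he]; simp
    let f := tw (e.symm : M →+* F) (one_ne_zero : (1 : F) ≠ 0) h1 h2
    refine le_trans ?_ (Nat.le_add_right _ _)
    have h3 := finrank_le_add f.toIntLinearMap (0 : EPt (algebraMap F M a) (algebraMap F M b) →ₗ[ℤ] PUnit) (by
      intro Q hQ _
      refine ⟨1, one_ne_zero, ?_⟩
      rw [one_smul]
      exact (map_eq_zero_iff f (tw_inj _ _ _ _)).1 hQ)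
    have h4 : Module.finrank ℤ PUnit = 0 := Module.finrank_zero_of_subsingleton
    omega

end Pool.Agent.Helper64.AV
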